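import Mathlib

/-!
# A rational partial correlation matrix without rational psd completion

The graph is the complete graph on the seven vertices `0, ..., 6` without the three disjoint edges
`01`, `23`, `45`.  The prescribed entries are the rational numbers in `A7`.  There is exactly one
real psd completion, and its three free entries are
`2/3 - 2/9 sqrt 2`, `1/7 - 1/7 sqrt 2`, `1 - sqrt 2`.
-/

set_option autoImplicit false

namespace Pool.Agent.Results.MP_dc0d0a_co.UniqueIrrational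

/-- `X` is a psd completion of the vector `x`, which gives a number for every edge of `G`:
`X` is a real symmetric matrix with `v^T X v` nonnegative for all real vectors `v`, the diagonal
entries are `1`, and the entry `(i, j)` is `x` of the edge `ij` for all edges `ij`. -/
def IsPsdCompletion {n : ℕ} (G : SimpleGraph (Fin n)) (x : G.edgeSet → ℝ)
    (X : Matrix (Fin n) (Fin n) ℝ) : Prop :=
  (∀ i j, X i j = X j i) ∧ (∀ v : Fin n → ℝ, 0 ≤ ∑ i, ∑ j, v i * X i j * v j) ∧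
    (∀ i, X i i = 1) ∧ ∀ (i j : Fin n) (h : s(i, j) ∈ G.edgeSet), X i j = x ⟨s(i, j), h⟩

/-- All entries of the matrix are rational numbers. -/
def IsRationalMatrix {n : ℕ} (X : Matrix (Fin n) (Fin n) ℝ) : Prop :=
  ∀ i j, ∃ q : ℚ, X i j = (q : ℝ)

/-- The complete graph on seven vertices without the three edges 01, 23, 45. -/
def G7 : SimpleGraph (Fin 7) where
  Adj i j := i.val / 2 ≠ j.val / 2
  symm := ⟨fun _ _ h => h.symm⟩
  loopless := ⟨fun _ h => h rfl⟩

/-- The prescribed entries are those of this symmetric matrix (its entries at the positions 01,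
23, 45 play no role). -/
def A7 : Fin 7 → Fin 7 → ℚ :=
  ![![1, 0, 0, 2/3, -2/3, 2/3, 1/3],
    ![0, 1, -1/3, 5/7, -1/3, -1/3, 2/3],
    ![0, -1/3, 1, 0, 0, 0, 0],
    ![2/3, 5/7, 0, 1, -1/7, 1/7, 6/7],
    ![-2/3, -1/3, 0, -1/7, 1, 0, 0],
    ![2/3, -1/3, 0, 1/7, 0, 1, 0],
    ![1/3, 2/3, 0, 6/7, 0, 0, 1]]

/-- The matrix `A7` with the three free entries `x` (positions 01 and 10), `y` (positions 23 and
32), `z` (positions 45 and 54). -/
noncomputable def M (x y z : ℝ) : Matrix (Fin 7) (Fin 7) ℝ :=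
  !![1, x, 0, 2/3, -2/3, 2/3, 1/3;
    x, 1, -1/3, 5/7, -1/3, -1/3, 2/3;
    0, -1/3, 1, y, 0, 0, 0;
    2/3, 5/7, y, 1, -1/7, 1/7, 6/7;
    -2/3, -1/3, 0, -1/7, 1, z, 0;
    2/3, -1/3, 0, 1/7, z, 1, 0;
    1/3, 2/3, 0, 6/7, 0, 0, 1]

/-- First dual vector. -/
noncomputable def U (s : ℝ) : Fin 7 → ℝ :=
  ![3/2, 3 - 3/2 * s, 3 - 2 * s, -7 + 7/2 * s, 1, 0, 7/2 - 2 * s]

/-- Second dual vector. -/
noncomputable def V (s : ℝ) : Fin 7 → ℝ :=
  ![3 - 3 * s, 3 - 3/2 * s, 6 - 4 * s, -14 + 21/2 * s, 0, 1, 9 - 7 * s]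

theorem A7_symm : ∀ i j, A7 i j = A7 j i := by
  intro i j
  fin_cases i <;> fin_cases j <;> simp [A7]

theorem M_symm (x y z : ℝ) (i j : Fin 7) : M x y z i j = M x y z j i := by
  fin_cases i <;> fin_cases j <;> simp [M]

theorem quad (s : ℝ) (hs : s ^ 2 = 2) (v : Fin 7 → ℝ) :
    ∑ i, ∑ j, v i * M (2/3 - 2/9 * s) (1/7 - 1/7 * s) (1 - s) i j * v j =
      (v 6 + 1/3 * v 0 + 2/3 * v 1 + 6/7 * v 3) ^ 2
      + (-(1/3 * v 1) + v 2 + (1 - s) * (1/7 * v 3)) ^ 2
      + (-(2/3 * v 0) - 1/3 * v 1 - 1/7 * v 3 + v 4 + (1 - s) * v 5) ^ 2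
      + (2/3 * v 0 + (1 - s) * (1/3 * v 1) + 3 * (1/7 * v 3) + (2 - s) * v 5) ^ 2
      + 2 * s * (1/3 * v 1 + 1/7 * v 3 + (1 - s) * v 5) ^ 2 := by
  simp only [M, Fin.sum_univ_seven, Matrix.of_apply, Matrix.cons_val]
  linear_combination (-1/9 * v 1 ^ 2 + 2/3 * v 1 * v 5 - 1/49 * v 3 ^ 2 + 4/7 * v 3 * v 5
    + (2 - 2 * s) * v 5 ^ 2) * hs

theorem dual_zero (s : ℝ) (hs : s ^ 2 = 2) (x y z : ℝ) :
    (2 * s - 2) * (∑ i, ∑ j, U s i * M x y z i j * U s j) +
      ∑ i, ∑ j, V s i * M x y z i j * V s j = 0 := by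
  simp only [M, U, V, Fin.sum_univ_seven, Matrix.of_apply, Matrix.cons_val]
  linear_combination (-14 + 10 * s + (42 - 28 * s) * y) * hs

/-- the real completion -/
theorem isPsdCompletion_M (x : G7.edgeSet → ℝ)
    (hx : ∀ (i j : Fin 7) (h : s(i, j) ∈ G7.edgeSet), x ⟨s(i, j), h⟩ = (A7 i j : ℝ))
    (s : ℝ) (hs : s ^ 2 = 2) (h0 : 0 ≤ s) :
    IsPsdCompletion G7 x (M (2/3 - 2/9 * s) (1/7 - 1/7 * s) (1 - s)) := by
  refine ⟨M_symm _ _ _, fun v => ?_, fun i => ?_, fun i j h => ?_⟩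
  · rw [quad s hs v]; positivity
  · fin_cases i <;> simp [M]
  · rw [hx]
    have hij : i.val / 2 ≠ j.val / 2 := h
    clear h
    fin_cases i <;> fin_cases j <;> simp at hij <;> simp [M, A7]

/-- the shape of a completion -/
theorem shape (x : G7.edgeSet → ℝ)
    (hx : ∀ (i j : Fin 7) (h : s(i, j) ∈ G7.edgeSet), x ⟨s(i, j), h⟩ = (A7 i j : ℝ))
    {Y : Matrix (Fin 7) (Fin 7) ℝ} (hY : IsPsdCompletion G7 x Y) :
    Y = M (Y 0 1) (Y 2 3) (Y 4 5) := by
  obtain ⟨hsym, -, hd, he⟩ := hY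
  ext i j
  by_cases hij : i.val / 2 ≠ j.val / 2
  · have hij' : s(i, j) ∈ G7.edgeSet := hij
    rw [he i j hij', hx i j hij']
    clear hij'
    fin_cases i <;> fin_cases j <;> simp at hij <;> simp [M, A7]
  · by_cases hd' : i = j
    · subst hd'
      rw [hd i]
      fin_cases i <;> simp [M]
    · fin_cases i <;> fin_cases j <;> first
        | exact absurd rfl hd'
        | (exfalso; apply hij; simp; done)
        | (simp [M]; done)
        | (simpa [M] using hsym _ _)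

/-- A vector with `v^T Y v = 0` is in the kernel of a positive semidefinite matrix `Y`. -/
theorem kernel {n : ℕ} {Y : Matrix (Fin n) (Fin n) ℝ} (hsym : ∀ i j, Y i j = Y j i)
    (hpos : ∀ v : Fin n → ℝ, 0 ≤ ∑ i, ∑ j, v i * Y i j * v j) (u : Fin n → ℝ)
    (hu : ∑ i, ∑ j, u i * Y i j * u j = 0) (i : Fin n) : ∑ j, Y i j * u j = 0 := by
  have hconv : ∀ v : Fin n → ℝ, v ⬝ᵥ Y.mulVec v = ∑ i, ∑ j, v i * Y i j * v j := by
    intro v
    simp only [dotProduct, Matrix.mulVec, Finset.mul_sum, mul_assoc]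
  have hY : Y.PosSemidef := by
    refine Matrix.PosSemidef.of_dotProduct_mulVec_nonneg ?_ fun v => ?_
    · ext i j
      simpa using hsym j i
    · rw [star_trivial, hconv]
      exact hpos v
  have h := (hY.dotProduct_mulVec_zero_iff u).mp (by rw [star_trivial, hconv]; exact hu)
  exact congrFun h i

/-- Any completion has the three free entries given by `s`. -/
theorem entries (s : ℝ) (hs : s ^ 2 = 2) (h1 : 1 < s) (x y z : ℝ)
    (hpos : ∀ v : Fin 7 → ℝ, 0 ≤ ∑ i, ∑ j, v i * M x y z i j * v j) :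
    x = 2/3 - 2/9 * s ∧ y = 1/7 - 1/7 * s ∧ z = 1 - s := by
  have hU := hpos (U s)
  have hV := hpos (V s)
  have hz := dual_zero s hs x y z
  have hs2 : s < 3/2 := by nlinarith
  have hU0 : ∑ i, ∑ j, U s i * M x y z i j * U s j = 0 := by
    have h2 : 0 ≤ (2 * s - 2) * (∑ i, ∑ j, U s i * M x y z i j * U s j) :=
      mul_nonneg (by linarith) hU
    have h3 : (2 * s - 2) * (∑ i, ∑ j, U s i * M x y z i j * U s j) = 0 := by linarith
    rcases mul_eq_zero.mp h3 with h4 | h4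
    · linarith
    · exact h4
  have hker := kernel (M_symm x y z) hpos (U s) hU0
  have h0 := hker 0
  have h3 := hker 3
  have h5 := hker 5
  simp only [M, U, Fin.sum_univ_seven, Matrix.of_apply, Matrix.cons_val] at h0 h3 h5
  refine ⟨?_, ?_, by linarith⟩
  · have e1 : (3 - 3/2 * s) * (x - (2/3 - 2/9 * s)) = 0 := by
      linear_combination h0 + (-1/3) * hs
    rcases mul_eq_zero.mp e1 with h | h
    · exfalso; linarith
    · linarith
  · have e2 : (3 - 2 * s) * (y - (1/7 - 1/7 * s)) = 0 := by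
      linear_combination h3 + (-2/7) * hs
    rcases mul_eq_zero.mp e2 with h | h
    · exfalso; linarith
    · linarith

/-- Let `G7` be the complete graph on seven vertices without three disjoint edges.  The rational
vector `x` given by the entries of `A7` on the edges of `G7` has exactly one psd completion, the
three free entries of this completion are `2/3 - 2/9 sqrt 2`, `1/7 - 1/7 sqrt 2` and
`1 - sqrt 2`, which are irrational; in particular `x` has no rational psd completion. -/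
theorem result :
    (∀ i j, A7 i j = A7 j i) ∧
    ∃ x : G7.edgeSet → ℚ,
      (∀ (i j : Fin 7) (h : s(i, j) ∈ G7.edgeSet), x ⟨s(i, j), h⟩ = A7 i j) ∧
      (∃! X : Matrix (Fin 7) (Fin 7) ℝ, IsPsdCompletion G7 (fun e => (x e : ℝ)) X) ∧
      (∀ X : Matrix (Fin 7) (Fin 7) ℝ, IsPsdCompletion G7 (fun e => (x e : ℝ)) X →
        X 0 1 = 2 / 3 - 2 / 9 * √2 ∧ X 2 3 = 1 / 7 - 1 / 7 * √2 ∧ X 4 5 = 1 - √2 ∧
        Irrational (X 0 1) ∧ Irrational (X 2 3) ∧ Irrational (X 4 5)) ∧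
      ¬ ∃ X : Matrix (Fin 7) (Fin 7) ℝ, IsPsdCompletion G7 (fun e => (x e : ℝ)) X ∧
        IsRationalMatrix X := by
  have hs : (√2 : ℝ) ^ 2 = 2 := Real.sq_sqrt (by norm_num)
  have hs0 : (0 : ℝ) ≤ √2 := Real.sqrt_nonneg 2
  have hs1 : (1 : ℝ) < √2 := by
    rw [Real.lt_sqrt (by norm_num)]; norm_num
  let x : G7.edgeSet → ℚ := fun e => Sym2.lift ⟨A7, A7_symm⟩ e.1
  have hx : ∀ (i j : Fin 7) (h : s(i, j) ∈ G7.edgeSet),
      ((x ⟨s(i, j), h⟩ : ℚ) : ℝ) = (A7 i j : ℝ) := fun i j h => rfl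
  have key : ∀ X : Matrix (Fin 7) (Fin 7) ℝ, IsPsdCompletion G7 (fun e => (x e : ℝ)) X →
      X 0 1 = 2 / 3 - 2 / 9 * √2 ∧ X 2 3 = 1 / 7 - 1 / 7 * √2 ∧ X 4 5 = 1 - √2 := by
    intro X hX
    have hsh := shape _ hx hX
    refine entries _ hs hs1 _ _ _ fun v => ?_
    rw [← hsh]
    exact hX.2.1 v
  have hirr : ∀ (a b : ℚ), b ≠ 0 → Irrational ((a : ℝ) - b * √2) := by
    intro a b hb
    have h1 : Irrational ((b : ℝ) * √2) := irrational_sqrt_two.ratCast_mul hb
    exact h1.ratCast_sub a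
  have key2 : ∀ X : Matrix (Fin 7) (Fin 7) ℝ, IsPsdCompletion G7 (fun e => (x e : ℝ)) X →
      Irrational (X 0 1) ∧ Irrational (X 2 3) ∧ Irrational (X 4 5) := by
    intro X hX
    obtain ⟨h1, h2, h3⟩ := key X hX
    rw [h1, h2, h3]
    refine ⟨?_, ?_, ?_⟩
    · have := hirr (2/3) (2/9) (by norm_num)
      push_cast at this
      exact this
    · have := hirr (1/7) (1/7) (by norm_num)
      push_cast at this
      exact this
    · have := hirr 1 1 (by norm_num)
      push_cast at this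
      rwa [one_mul] at this
  refine ⟨A7_symm, x, fun i j h => rfl,
    ⟨M (2/3 - 2/9 * √2) (1/7 - 1/7 * √2) (1 - √2), isPsdCompletion_M _ hx _ hs hs0,
      fun Y hY => ?_⟩, fun X hX => ?_, ?_⟩
  · have h := shape _ hx hY
    obtain ⟨h1, h2, h3⟩ := key Y hY
    rw [h, h1, h2, h3]
  · obtain ⟨h1, h2, h3⟩ := key X hX
    exact ⟨h1, h2, h3, key2 X hX⟩
  · rintro ⟨X, hX, hr⟩
    obtain ⟨q, hq⟩ := hr 4 5
    exact (key2 X hX).2.2 ⟨q, hq.symm⟩

end Pool.Agent.Results.MP_dc0d0a_co.UniqueIrrational
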